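import Pool.Agent.R260.RD.Defs

/-! Common lemmas for RD-1 and RD-2: cluster values of a bounded sequence. -/

namespace Pool.Agent.R260.RD

open Filter Topology

theorem cl_seq {x : ℕ → ℝ} {K : Set ℝ} (hK : IsCompact K) (hx : ∀ n, x n ∈ K)
    {c : ℝ} (hc : MapClusterPt c atTop x) :
    ∃ (U : Ultrafilter ℕ) (y : ℕ → ℝ), (U : Filter ℕ) ≤ atTop ∧ y 0 = c ∧
      ∀ i, y i ∈ K ∧ Tendsto (fun n => x (n - i)) U (𝓝 (y i)) ∧ MapClusterPt (y i) atTop x := by
  obtain ⟨U, hU, hUc⟩ := mapClusterPt_iff_ultrafilter.1 hc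
  have key : ∀ i : ℕ, ∃ z ∈ K, Tendsto (fun n => x (n - i)) U (𝓝 z) := by
    intro i
    have h1 : (U.map (fun n : ℕ => x (n - i)) : Filter ℝ) ≤ 𝓟 K := by
      rw [le_principal_iff]
      exact Filter.mem_map.2 (Filter.univ_mem' (fun n : ℕ => hx (n - i)))
    obtain ⟨z, hz, hz2⟩ := hK.ultrafilter_le_nhds (U.map (fun n : ℕ => x (n - i))) h1
    exact ⟨z, hz, hz2⟩
  choose y hyK hy using key
  refine ⟨U, y, hU, ?_, ?_⟩
  · have h0 := hy 0
    simp only [Nat.sub_zero] at h0
    exact tendsto_nhds_unique h0 hUc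
  · intro i
    refine ⟨hyK i, hy i, ?_⟩
    rw [mapClusterPt_iff_ultrafilter]
    refine ⟨U.map (fun n => n - i), ?_, ?_⟩
    · have h2 : Tendsto (fun n : ℕ => n - i) atTop atTop := tendsto_sub_atTop_nat i
      exact (Filter.map_mono hU).trans h2
    · have := hy i
      rw [Ultrafilter.coe_map]
      exact tendsto_map'_iff.2 this

theorem cl_ext {x : ℕ → ℝ} {K : Set ℝ} (hK : IsCompact K) (hx : ∀ n, x n ∈ K) :
    ∃ S I : ℝ, MapClusterPt S atTop x ∧ MapClusterPt I atTop x ∧
      ∀ c, MapClusterPt c atTop x → I ≤ c ∧ c ≤ S := by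
  have hcl : IsClosed {c | MapClusterPt c atTop x} := isClosed_setOf_clusterPt
  have hsub : {c | MapClusterPt c atTop x} ⊆ K := by
    intro c hc
    have h1 : ClusterPt c (𝓟 K) := by
      refine ClusterPt.mono hc ?_
      rw [le_principal_iff]
      exact Filter.mem_map.2 (Filter.univ_mem' hx)
    exact hK.isClosed.closure_eq ▸ mem_closure_iff_clusterPt.2 h1
  have hcomp : IsCompact {c | MapClusterPt c atTop x} := hK.of_isClosed_subset hcl hsub
  have hne : {c | MapClusterPt c atTop x}.Nonempty := by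
    obtain ⟨c, _, hc⟩ := hK.exists_mapClusterPt (f := (atTop : Filter ℕ)) (u := x)
      (by rw [le_principal_iff]; exact Filter.mem_map.2 (Filter.univ_mem' hx))
    exact ⟨c, hc⟩
  obtain ⟨S, hS⟩ := hcomp.exists_isGreatest hne
  obtain ⟨I, hI⟩ := hcomp.exists_isLeast hne
  exact ⟨S, I, hS.1, hI.1, fun c hc => ⟨hI.2 hc, hS.2 hc⟩⟩

/-- the recursion in the form with `a = k+1`, `b = l+1` -/
theorem isSol_rec {k l : ℕ} {v : Fin (max k l + 1) → ℝ} {x : ℕ → ℝ} (h : IsSol k l v x) :
    ∀ n, max (k + 1) (l + 1) ≤ n → x n = 1 / x (n - (k + 1)) + 1 / x (n - (l + 1)) := by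
  intro n hn
  obtain ⟨n', rfl⟩ : ∃ n', n = n' + max k l + 1 := ⟨n - (max k l + 1), by omega⟩
  have h2 := h.2 n'
  rw [h2]
  congr 3 <;> omega

theorem isSol_pos {k l : ℕ} {v : Fin (max k l + 1) → ℝ} {x : ℕ → ℝ} (hv : ∀ i, 0 < v i)
    (h : IsSol k l v x) : ∀ n, 0 < x n := by
  intro n
  induction n using Nat.strong_induction_on with
  | _ n ih =>
    rcases Nat.lt_or_ge n (max k l + 1) with hn | hn
    · have := h.1 ⟨n, hn⟩
      simp only at this
      rw [this]; exact hv _
    · rw [isSol_rec h n (by omega)]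
      have h1 := ih (n - (k + 1)) (by omega)
      have h2 := ih (n - (l + 1)) (by omega)
      positivity

theorem exists_low {x : ℕ → ℝ} (hx : ∀ n, 0 < x n) (L : ℕ) :
    ∃ m : ℝ, 0 < m ∧ ∀ i < L, m ≤ x i ∧ x i ≤ 2 / m := by
  induction L with
  | zero => exact ⟨1, one_pos, fun i hi => absurd hi (by omega)⟩
  | succ L ih =>
    obtain ⟨m, hm, hm2⟩ := ih
    have hL := hx L
    refine ⟨min m (min (x L) (2 / x L)), lt_min hm (lt_min hL (by positivity)), ?_⟩
    intro i hi
    have hm' : 0 < min m (min (x L) (2 / x L)) := lt_min hm (lt_min hL (by positivity))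
    rcases Nat.lt_or_ge i L with h | h
    · obtain ⟨h1, h2⟩ := hm2 i h
      refine ⟨(min_le_left _ _).trans h1, h2.trans ?_⟩
      exact div_le_div_of_nonneg_left (by norm_num) hm' (min_le_left _ _)
    · have : i = L := by omega
      subst this
      refine ⟨(min_le_right _ _).trans (min_le_left _ _), ?_⟩
      rw [le_div_iff₀ hm']
      have h3 : min m (min (x i) (2 / x i)) ≤ 2 / x i :=
        (min_le_right _ _).trans (min_le_right _ _)
      calc x i * min m (min (x i) (2 / x i)) ≤ x i * (2 / x i) :=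
            mul_le_mul_of_nonneg_left h3 hL.le
        _ = 2 := by field_simp

end Pool.Agent.R260.RD
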