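import Mathlib

namespace Pool.Agent.R260.RD

open Filter Topology

/-- `x 0, x 1, …` is the solution of `x_{n+1} = 1/x_{n-k} + 1/x_{n-l}` with initial vector `v`
(the index is shifted by `max k l`, so that `x 0, …, x (max k l)` are the initial values). -/
def IsSol (k l : ℕ) (v : Fin (max k l + 1) → ℝ) (x : ℕ → ℝ) : Prop :=
  (∀ i : Fin (max k l + 1), x i = v i) ∧
  ∀ n : ℕ, x (n + max k l + 1) = 1 / x (n + max k l - k) + 1 / x (n + max k l - l)

/-- The basin of `√2`: positive initial vectors whose solution tends to `√2`. -/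
def basin (k l : ℕ) : Set (Fin (max k l + 1) → ℝ) :=
  {v | (∀ i, 0 < v i) ∧ ∀ x : ℕ → ℝ, IsSol k l v x → Tendsto x atTop (𝓝 (Real.sqrt 2))}

/-- The open positive orthant. -/
def orthant (k l : ℕ) : Set (Fin (max k l + 1) → ℝ) := {v | ∀ i, 0 < v i}

/-- `k+1` and `l+1` are both odd after division by their greatest common divisor. -/
def BothOdd (k l : ℕ) : Prop :=
  Odd ((k + 1) / Nat.gcd (k + 1) (l + 1)) ∧ Odd ((l + 1) / Nat.gcd (k + 1) (l + 1))

/-- RD-1: the basin is everything iff not `BothOdd`. -/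
def Goal1 : Prop := ∀ k l : ℕ, basin k l = orthant k l ↔ ¬ BothOdd k l

/-- The scaling of an initial vector by `t : (0,∞)^d`: the entry with index `i` is multiplied or
divided by `t (i mod d)` according to the parity of `⌊i/d⌋`. -/
noncomputable def scale {M : ℕ} (d : ℕ) (t : ℕ → ℝ) (v : Fin M → ℝ) : Fin M → ℝ :=
  fun i => if Even (i.val / d) then v i * t (i.val % d) else v i / t (i.val % d)

/-- RD-2: in the `BothOdd` case, with `d = gcd (k+1) (l+1)`, every positive solution converges to a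
solution of period `2d`, and every positive vector has exactly one scaling in the basin. -/
def Goal2 : Prop := ∀ k l : ℕ, BothOdd k l →
  (∀ v ∈ orthant k l, ∀ x, IsSol k l v x → ∃ φ : ℕ → ℝ, (∀ r, 0 < φ r) ∧
    ∀ r < Nat.gcd (k + 1) (l + 1),
      Tendsto (fun j => x (r + Nat.gcd (k + 1) (l + 1) * (2 * j))) atTop (𝓝 (φ r)) ∧
      Tendsto (fun j => x (r + Nat.gcd (k + 1) (l + 1) * (2 * j + 1))) atTop (𝓝 (2 / φ r))) ∧
  (∀ v ∈ orthant k l, ∃ t : ℕ → ℝ, (∀ r, 0 < t r) ∧
    scale (Nat.gcd (k + 1) (l + 1)) t v ∈ basin k l ∧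
    ∀ t' : ℕ → ℝ, (∀ r, 0 < t' r) → scale (Nat.gcd (k + 1) (l + 1)) t' v ∈ basin k l →
      ∀ r < Nat.gcd (k + 1) (l + 1), t' r = t r)

end Pool.Agent.R260.RD
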