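import Pool.Agent.R260.RD.Base

/-! RD-1: the basin of `√2` is the whole orthant iff not both `(k+1)/g`, `(l+1)/g` are odd. -/

namespace Pool.Agent.R260.RD

open Filter Topology

theorem g1_main {a b : ℕ} (ha : 1 ≤ a) (hb : 1 ≤ b) {x : ℕ → ℝ} (hpos : ∀ n, 0 < x n)
    (hrec : ∀ n, max a b ≤ n → x n = 1 / x (n - a) + 1 / x (n - b))
    (hpar : ¬ (Odd (a / Nat.gcd a b) ∧ Odd (b / Nat.gcd a b))) :
    Tendsto x atTop (𝓝 (Real.sqrt 2)) := by
  obtain ⟨m, hm, hm2⟩ := exists_low hpos (max a b)
  have hK : ∀ n, x n ∈ Set.Icc m (2 / m) := by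
    intro n
    induction n using Nat.strong_induction_on with
    | _ n ih =>
      rcases Nat.lt_or_ge n (max a b) with hn | hn
      · exact hm2 n hn
      · obtain ⟨h1, h2⟩ := ih (n - a) (by omega)
        obtain ⟨h3, h4⟩ := ih (n - b) (by omega)
        rw [hrec n hn]
        have e1 : 1 / x (n - a) ≤ 1 / m := one_div_le_one_div_of_le hm h1
        have e2 : 1 / x (n - b) ≤ 1 / m := one_div_le_one_div_of_le hm h3
        have e3 : 1 / (2 / m) ≤ 1 / x (n - a) := one_div_le_one_div_of_le (hpos _) h2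
        have e4 : 1 / (2 / m) ≤ 1 / x (n - b) := one_div_le_one_div_of_le (hpos _) h4
        have e5 : 1 / (2 / m) = m / 2 := by field_simp
        have e6 : 1 / m + 1 / m = 2 / m := by ring
        constructor
        · rw [e5] at e3 e4; linarith
        · rw [← e6]; linarith
  have hcomp : IsCompact (Set.Icc m (2 / m)) := isCompact_Icc
  obtain ⟨S, I, hS, hI, hext⟩ := cl_ext hcomp hK
  have seqOf : ∀ c, MapClusterPt c atTop x → ∃ y : ℕ → ℝ, y 0 = c ∧
      ∀ i, (I ≤ y i ∧ y i ≤ S) ∧ 0 < y i ∧ y i = 1 / y (i + a) + 1 / y (i + b) := by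
    intro c hc
    obtain ⟨U, y, hU, hy0, hy⟩ := cl_seq hcomp hK hc
    have hyp : ∀ i, 0 < y i := fun i => lt_of_lt_of_le hm (hy i).1.1
    refine ⟨y, hy0, fun i => ⟨hext _ (hy i).2.2, hyp i, ?_⟩⟩
    have h1 : Tendsto (fun n => 1 / x (n - (i + a)) + 1 / x (n - (i + b))) U
        (𝓝 (1 / y (i + a) + 1 / y (i + b))) := by
      refine Tendsto.add ?_ ?_
      · exact Tendsto.div tendsto_const_nhds (hy (i + a)).2.1 (hyp _).ne'
      · exact Tendsto.div tendsto_const_nhds (hy (i + b)).2.1 (hyp _).ne'
    have h2 : (fun n => x (n - i)) =ᶠ[(U : Filter ℕ)]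
        (fun n => 1 / x (n - (i + a)) + 1 / x (n - (i + b))) := by
      apply hU
      filter_upwards [eventually_ge_atTop (i + max a b)] with n hn
      rw [hrec (n - i) (by omega), Nat.sub_sub, Nat.sub_sub]
    exact tendsto_nhds_unique ((hy i).2.1) (h1.congr' h2.symm)
  -- `S * I = 2`
  obtain ⟨y, hy0, hy⟩ := seqOf S hS
  obtain ⟨z, hz0, hz⟩ := seqOf I hI
  have hI0 : 0 < I := by rw [← hz0]; exact (hz 0).2.1
  have hS0 : 0 < S := by rw [← hy0]; exact (hy 0).2.1
  have up : ∀ i, 1 / y i ≤ 1 / I := fun i => one_div_le_one_div_of_le hI0 (hy i).1.1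
  have lo : ∀ i, 1 / S ≤ 1 / y i := fun i => one_div_le_one_div_of_le (hy i).2.1 (hy i).1.2
  have h1 : S ≤ 1 / I + 1 / I := by
    have := (hy 0).2.2
    rw [hy0] at this
    rw [this]
    exact add_le_add (up _) (up _)
  have h2 : 1 / S + 1 / S ≤ I := by
    have := (hz 0).2.2
    rw [hz0] at this
    rw [this]
    exact add_le_add (one_div_le_one_div_of_le (hz _).2.1 (hz _).1.2)
      (one_div_le_one_div_of_le (hz _).2.1 (hz _).1.2)
  have h3 : S * I ≤ 2 := by
    have : S * I ≤ (1 / I + 1 / I) * I := mul_le_mul_of_nonneg_right h1 hI0.le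
    have e : (1 / I + 1 / I) * I = 2 := by field_simp; norm_num
    linarith
  have h4 : 2 ≤ S * I := by
    have : S * (1 / S + 1 / S) ≤ S * I := mul_le_mul_of_nonneg_left h2 hS0.le
    have e : S * (1 / S + 1 / S) = 2 := by field_simp; norm_num
    linarith
  have hSI : S * I = 2 := le_antisymm h3 h4
  have hS2 : S = 1 / I + 1 / I := by field_simp; linarith
  have hI2 : I = 1 / S + 1 / S := by field_simp; linarith
  have inv_inj : ∀ s t : ℝ, 0 < s → 0 < t → 1 / s = 1 / t → s = t := by
    intro s t hs ht h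
    rw [one_div, one_div] at h
    exact inv_injective h
  have stepS : ∀ i, y i = S → y (i + a) = I ∧ y (i + b) = I := by
    intro i hi
    have e := (hy i).2.2
    rw [hi] at e
    have u1 := up (i + a)
    have u2 := up (i + b)
    exact ⟨inv_inj _ _ (hy _).2.1 hI0 (by linarith), inv_inj _ _ (hy _).2.1 hI0 (by linarith)⟩
  have stepI : ∀ i, y i = I → y (i + a) = S ∧ y (i + b) = S := by
    intro i hi
    have e := (hy i).2.2
    rw [hi] at e
    have u1 := lo (i + a)
    have u2 := lo (i + b)
    exact ⟨inv_inj _ _ (hy _).2.1 hS0 (by linarith), inv_inj _ _ (hy _).2.1 hS0 (by linarith)⟩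
  have stepc : ∀ c : ℕ, (∀ i, y i = S → y (i + c) = I) → (∀ i, y i = I → y (i + c) = S) →
      ∀ p : ℕ, y (p * c) = if Even p then S else I := by
    intro c hc1 hc2 p
    induction p with
    | zero => simp [hy0]
    | succ p ih =>
      rw [Nat.succ_mul]
      by_cases hp : Even p
      · rw [if_pos hp] at ih
        rw [hc1 _ ih, if_neg (by rw [Nat.even_add_one]; simpa using hp)]
      · rw [if_neg hp] at ih
        rw [hc2 _ ih, if_pos (by rw [Nat.even_add_one]; exact hp)]
  have hA := stepc a (fun i hi => (stepS i hi).1) (fun i hi => (stepI i hi).1)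
  have hB := stepc b (fun i hi => (stepS i hi).2) (fun i hi => (stepI i hi).2)
  have hSeqI : S = I := by
    set g := Nat.gcd a b with hg
    have hg0 : 0 < g := Nat.gcd_pos_of_pos_left b (by omega)
    obtain ⟨a', ha'⟩ := Nat.gcd_dvd_left a b
    obtain ⟨b', hb'⟩ := Nat.gcd_dvd_right a b
    rw [← hg] at ha' hb'
    have ea : a / g = a' := by rw [ha']; exact Nat.mul_div_cancel_left a' hg0
    have eb : b / g = b' := by rw [hb']; exact Nat.mul_div_cancel_left b' hg0
    have hcop : Nat.Coprime a' b' := by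
      have := Nat.coprime_div_gcd_div_gcd (m := a) (n := b) (by rw [← hg]; exact hg0)
      rw [← hg, ea, eb] at this
      exact this
    rw [ea, eb] at hpar
    have hidx : b' * a = a' * b := by rw [ha', hb']; ring
    have e1 := hA b'
    have e2 := hB a'
    rw [hidx, e2] at e1
    by_cases hae : Even a'
    · have hbo : ¬ Even b' := by
        intro hbe
        have := Nat.dvd_gcd hae.two_dvd hbe.two_dvd
        rw [hcop] at this
        omega
      rw [if_pos hae, if_neg hbo] at e1
      exact e1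
    · have hbe : Even b' := by
        by_contra hbo
        exact hpar ⟨Nat.not_even_iff_odd.1 hae, Nat.not_even_iff_odd.1 hbo⟩
      rw [if_neg hae, if_pos hbe] at e1
      exact e1.symm
  have hSq : S = Real.sqrt 2 := by
    rw [eq_comm, Real.sqrt_eq_iff_mul_self_eq (by norm_num) hS0.le]
    rw [← hSeqI] at hSI
    exact hSI.symm
  refine hcomp.tendsto_nhds_of_unique_mapClusterPt (Filter.Eventually.of_forall hK) ?_
  intro c _ hc
  have := hext c hc
  rw [← hSeqI] at this
  rw [← hSq]
  exact le_antisymm this.2 this.1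

/-- the 2g-periodic solution `1, 2` -/
theorem g1_neg {k l : ℕ} (h : BothOdd k l) : basin k l ≠ orthant k l := by
  intro heq
  set d := Nat.gcd (k + 1) (l + 1) with hd
  have hd0 : 0 < d := Nat.gcd_pos_of_pos_left _ (by omega)
  obtain ⟨a', ha'⟩ := Nat.gcd_dvd_left (k + 1) (l + 1)
  obtain ⟨b', hb'⟩ := Nat.gcd_dvd_right (k + 1) (l + 1)
  rw [← hd] at ha' hb'
  have ea : (k + 1) / d = a' := by rw [ha']; exact Nat.mul_div_cancel_left a' hd0
  have eb : (l + 1) / d = b' := by rw [hb']; exact Nat.mul_div_cancel_left b' hd0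
  have hodd : Odd a' ∧ Odd b' := by
    have := h
    unfold BothOdd at this
    rw [← hd, ea, eb] at this
    exact this
  let x : ℕ → ℝ := fun n => if Even (n / d) then 1 else 2
  let v : Fin (max k l + 1) → ℝ := fun i => x i
  have hflip : ∀ N c' : ℕ, Odd c' → d * c' ≤ N → (Even ((N - d * c') / d) ↔ ¬ Even (N / d)) := by
    intro N c' hc' hN
    rw [Nat.sub_mul_div]
    have h1 : c' ≤ N / d := by
      rw [Nat.le_div_iff_mul_le hd0, mul_comm]; exact hN
    rw [Nat.even_sub h1]
    have := Nat.not_even_iff_odd.2 hc'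
    tauto
  have hsol : IsSol k l v x := by
    refine ⟨fun i => rfl, ?_⟩
    intro n
    have e1 : n + max k l - k = (n + max k l + 1) - d * a' := by omega
    have e2 : n + max k l - l = (n + max k l + 1) - d * b' := by omega
    rw [e1, e2]
    have f1 := hflip (n + max k l + 1) a' hodd.1 (by omega)
    have f2 := hflip (n + max k l + 1) b' hodd.2 (by omega)
    simp only [x]
    by_cases hE : Even ((n + max k l + 1) / d)
    · rw [if_pos hE, if_neg (by rw [f1]; simpa using hE), if_neg (by rw [f2]; simpa using hE)]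
      norm_num
    · rw [if_neg hE, if_pos (f1.2 hE), if_pos (f2.2 hE)]
      norm_num
  have hv : v ∈ orthant k l := by
    intro i
    simp only [v, x]
    split_ifs <;> norm_num
  rw [← heq] at hv
  have hlim := hv.2 x hsol
  have hsub : Tendsto (fun j : ℕ => x (d * (2 * j))) atTop (𝓝 (Real.sqrt 2)) := by
    refine hlim.comp ?_
    refine tendsto_atTop_mono (f := fun j : ℕ => j) ?_ tendsto_id
    intro j
    calc j ≤ 1 * (2 * j) := by omega
      _ ≤ d * (2 * j) := Nat.mul_le_mul_right _ hd0
  have hone : (fun j : ℕ => x (d * (2 * j))) = fun _ => (1 : ℝ) := by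
    funext j
    simp only [x]
    rw [Nat.mul_div_cancel_left _ hd0, if_pos (even_two_mul j)]
  rw [hone] at hsub
  have := tendsto_nhds_unique hsub tendsto_const_nhds
  have h2 : Real.sqrt 2 ≠ 1 := by
    intro h3
    have := Real.sq_sqrt (show (0 : ℝ) ≤ 2 by norm_num)
    rw [h3] at this
    norm_num at this
  exact h2 this

theorem goal1 : Goal1 := by
  intro k l
  constructor
  · intro h hB
    exact g1_neg hB h
  · intro h
    apply Set.eq_of_subset_of_subset
    · intro v hv
      exact hv.1
    · intro v hv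
      refine ⟨hv, fun x hx => ?_⟩
      exact g1_main (a := k + 1) (b := l + 1) (by omega) (by omega) (isSol_pos hv hx)
        (isSol_rec hx) h

end Pool.Agent.R260.RD
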