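import Pool.Agent.R260.RD.Base

/-! RD-2: the case where both `(k+1)/g`, `(l+1)/g` are odd. -/

namespace Pool.Agent.R260.RD

open Filter Topology

theorem g2_frob {a b : ℕ} (hcop : Nat.Coprime a b) :
    ∃ i1 : ℕ, ∀ i, i1 ≤ i → ∃ p q : ℕ, p * a + q * b = i := by
  refine ⟨(a - 1) * (b - 1), fun i hi => ?_⟩
  exact Nat.exists_add_mul_eq_of_gcd_dvd_of_mul_pred_le a b i (by rw [hcop]; exact one_dvd _) hi

theorem g2_conv {a b : ℕ} (ha : 1 ≤ a) (hb : 1 ≤ b) (hcop : Nat.Coprime a b) {w : ℕ → ℝ}
    (hpos : ∀ n, 0 < w n)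
    (hup : ∀ n, max a b ≤ n → w n ≤ (w (n - a) + w (n - b)) / 2)
    (hlo : ∀ n, max a b ≤ n → min (w (n - a)) (w (n - b)) ≤ w n) :
    ∃ φ : ℝ, 0 < φ ∧ Tendsto w atTop (𝓝 φ) := by
  obtain ⟨m, hm, hm2⟩ := exists_low hpos (max a b)
  have hK : ∀ n, w n ∈ Set.Icc m (2 / m) := by
    intro n
    induction n using Nat.strong_induction_on with
    | _ n ih =>
      rcases Nat.lt_or_ge n (max a b) with hn | hn
      · exact hm2 n hn
      · obtain ⟨h1, h2⟩ := ih (n - a) (by omega)
        obtain ⟨h3, h4⟩ := ih (n - b) (by omega)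
        exact ⟨(le_min h1 h3).trans (hlo n hn), (hup n hn).trans (by linarith)⟩
  have hcomp : IsCompact (Set.Icc m (2 / m)) := isCompact_Icc
  obtain ⟨S, I, hS, hI, hext⟩ := cl_ext hcomp hK
  obtain ⟨U, y, hU, hy0, hy⟩ := cl_seq hcomp hK hS
  have hstep : ∀ i, y i = S → y (i + a) = S ∧ y (i + b) = S := by
    intro i hi
    have h1 : Tendsto (fun n => (w (n - (i + a)) + w (n - (i + b))) / 2) U
        (𝓝 ((y (i + a) + y (i + b)) / 2)) :=
      ((hy (i + a)).2.1.add (hy (i + b)).2.1).div_const 2
    have h2 : ∀ᶠ n in (U : Filter ℕ), w (n - i) ≤ (w (n - (i + a)) + w (n - (i + b))) / 2 := by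
      apply hU
      filter_upwards [eventually_ge_atTop (i + max a b)] with n hn
      have := hup (n - i) (by omega)
      rw [Nat.sub_sub, Nat.sub_sub] at this
      exact this
    have h3 := le_of_tendsto_of_tendsto (hy i).2.1 h1 h2
    have h4 := (hext _ (hy (i + a)).2.2).2
    have h5 := (hext _ (hy (i + b)).2.2).2
    rw [hi] at h3
    exact ⟨by linarith, by linarith⟩
  have hpa : ∀ p, y (p * a) = S := by
    intro p
    induction p with
    | zero => simpa using hy0
    | succ p ih => rw [Nat.succ_mul]; exact (hstep _ ih).1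
  have hpq : ∀ p q, y (p * a + q * b) = S := by
    intro p q
    induction q with
    | zero => simpa using hpa p
    | succ q ih =>
      have e : p * a + (q + 1) * b = p * a + q * b + b := by ring
      rw [e]; exact (hstep _ ih).2
  obtain ⟨i1, hi1⟩ := g2_frob hcop
  have hyS : ∀ i, i1 ≤ i → y i = S := by
    intro i hi
    obtain ⟨p, q, rfl⟩ := hi1 i hi
    exact hpq p q
  -- the window
  have hkey : ∀ ε > 0, ∃ n0, ∀ j, n0 ≤ j → S - ε ≤ w j := by
    intro ε hε
    set L := max a b with hL
    have h1 : ∀ᶠ n in (U : Filter ℕ), ∀ t ∈ Finset.range L, S - ε ≤ w (n - (i1 + t)) := by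
      rw [Filter.eventually_all_finset]
      intro t _
      have h2 := (hy (i1 + t)).2.1
      rw [hyS (i1 + t) (by omega)] at h2
      have h3 : ∀ᶠ n in (U : Filter ℕ), S - ε < w (n - (i1 + t)) :=
        h2.eventually (lt_mem_nhds (by linarith))
      exact h3.mono (fun n hn => hn.le)
    have h2 : ∀ᶠ n in (U : Filter ℕ), i1 + L ≤ n := hU (eventually_ge_atTop _)
    obtain ⟨n, hn1, hn2⟩ := (h1.and h2).exists
    refine ⟨n - (i1 + L) + 1, ?_⟩
    intro j
    induction j using Nat.strong_induction_on with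
    | _ j ih =>
      intro hj
      rcases Nat.lt_or_ge (n - i1) j with h3 | h3
      · have hmax : L ≤ j := by omega
        refine (le_min ?_ ?_).trans (hlo j hmax)
        · exact ih (j - a) (by omega) (by omega)
        · exact ih (j - b) (by omega) (by omega)
      · have := hn1 (n - i1 - j) (by rw [Finset.mem_range]; omega)
        have e : n - (i1 + (n - i1 - j)) = j := by omega
        rw [e] at this
        exact this
  have hIS : S ≤ I := by
    obtain ⟨V, hV, hVI⟩ := mapClusterPt_iff_ultrafilter.1 hI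
    refine le_of_forall_pos_le_add ?_
    intro ε hε
    obtain ⟨n0, hn0⟩ := hkey ε hε
    have h1 : ∀ᶠ n in (V : Filter ℕ), S - ε ≤ w n := by
      apply hV
      filter_upwards [eventually_ge_atTop n0] with n hn
      exact hn0 n hn
    have := ge_of_tendsto hVI h1
    linarith
  have hSpos : 0 < S := by
    have := (hy 0).1.1
    rw [hy0] at this
    linarith
  refine ⟨S, hSpos, ?_⟩
  refine hcomp.tendsto_nhds_of_unique_mapClusterPt (Filter.Eventually.of_forall hK) ?_
  intro c _ hc
  have := hext c hc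
  exact le_antisymm this.2 (hIS.trans this.1)

theorem hm_bounds {p q : ℝ} (hp : 0 < p) (hq : 0 < q) :
    2 / (1 / p + 1 / q) ≤ (p + q) / 2 ∧ min p q ≤ 2 / (1 / p + 1 / q) := by
  have e : 2 / (1 / p + 1 / q) = 2 * p * q / (p + q) := by
    field_simp
    ring
  rw [e]
  have hs : 0 < p + q := by linarith
  constructor
  · rw [div_le_div_iff₀ hs (by norm_num)]
    nlinarith [sq_nonneg (p - q)]
  · rw [le_div_iff₀ hs]
    rcases le_total p q with h | h
    · rw [min_eq_left h]; nlinarith
    · rw [min_eq_right h]; nlinarith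

theorem g2_class {d a' b' : ℕ} (ha1 : Odd a') (hb1 : Odd b') (hcop : Nat.Coprime a' b')
    {x : ℕ → ℝ} (hpos : ∀ n, 0 < x n)
    (hrec : ∀ n, max (d * a') (d * b') ≤ n → x n = 1 / x (n - d * a') + 1 / x (n - d * b'))
    (r : ℕ) :
    ∃ φ : ℝ, 0 < φ ∧ Tendsto (fun j => x (r + d * (2 * j))) atTop (𝓝 φ) ∧
      Tendsto (fun j => x (r + d * (2 * j + 1))) atTop (𝓝 (2 / φ)) := by
  have ha : 1 ≤ a' := ha1.pos
  have hb : 1 ≤ b' := hb1.pos
  set w : ℕ → ℝ := fun j => if Even j then x (r + d * j) else 2 / x (r + d * j) with hw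
  have hwpos : ∀ n, 0 < w n := by
    intro n
    simp only [hw]
    have := hpos (r + d * n)
    split_ifs <;> positivity
  have hform : ∀ j, max a' b' ≤ j →
      (w j = (w (j - a') + w (j - b')) / 2) ∨
      (w j = 2 / (1 / w (j - a') + 1 / w (j - b'))) := by
    intro j hj
    have hja : a' ≤ j := le_trans (le_max_left _ _) hj
    have hjb : b' ≤ j := le_trans (le_max_right _ _) hj
    have hda : d * a' ≤ d * j := Nat.mul_le_mul_left d hja
    have hdb : d * b' ≤ d * j := Nat.mul_le_mul_left d hjb
    have h1 := hrec (r + d * j) (by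
      have : max (d * a') (d * b') ≤ d * j := max_le hda hdb
      omega)
    have e1 : r + d * j - d * a' = r + d * (j - a') := by
      rw [Nat.mul_sub]; omega
    have e2 : r + d * j - d * b' = r + d * (j - b') := by
      rw [Nat.mul_sub]; omega
    rw [e1, e2] at h1
    have p1 : Even (j - a') ↔ ¬ Even j := by
      rw [Nat.even_sub hja]
      have := Nat.not_even_iff_odd.2 ha1
      tauto
    have p2 : Even (j - b') ↔ ¬ Even j := by
      rw [Nat.even_sub hjb]
      have := Nat.not_even_iff_odd.2 hb1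
      tauto
    have q1 := hpos (r + d * (j - a'))
    have q2 := hpos (r + d * (j - b'))
    simp only [hw]
    by_cases hE : Even j
    · left
      rw [if_pos hE, if_neg (by rw [p1]; simpa using hE), if_neg (by rw [p2]; simpa using hE), h1]
      field_simp
    · right
      rw [if_neg hE, if_pos (p1.2 hE), if_pos (p2.2 hE), h1]
  obtain ⟨φ, hφ, hlim⟩ := g2_conv ha hb hcop hwpos
    (by
      intro n hn
      rcases hform n hn with h | h
      · exact h.le
      · rw [h]; exact (hm_bounds (hwpos _) (hwpos _)).1)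
    (by
      intro n hn
      rcases hform n hn with h | h
      · rw [h]
        rcases le_total (w (n - a')) (w (n - b')) with h2 | h2
        · rw [min_eq_left h2]; linarith
        · rw [min_eq_right h2]; linarith
      · rw [h]; exact (hm_bounds (hwpos _) (hwpos _)).2)
  refine ⟨φ, hφ, ?_, ?_⟩
  · have h1 : Tendsto (fun j : ℕ => 2 * j) atTop atTop :=
      tendsto_atTop_mono (f := fun j : ℕ => j) (fun j => by omega) tendsto_id
    have h2 := hlim.comp h1
    refine h2.congr ?_
    intro j
    simp only [Function.comp, hw]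
    rw [if_pos (even_two_mul j)]
  · have h1 : Tendsto (fun j : ℕ => 2 * j + 1) atTop atTop :=
      tendsto_atTop_mono (f := fun j : ℕ => j) (fun j => by omega) tendsto_id
    have h2 := (hlim.comp h1)
    have h3 : Tendsto (fun j : ℕ => 2 / w (2 * j + 1)) atTop (𝓝 (2 / φ)) :=
      Tendsto.div tendsto_const_nhds h2 hφ.ne'
    refine h3.congr ?_
    intro j
    simp only [hw]
    rw [if_neg (by rw [Nat.even_add_one]; simp)]
    have := hpos (r + d * (2 * j + 1))
    field_simp

/-- the solution with a given initial vector -/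
noncomputable def sol (k l : ℕ) (v : Fin (max k l + 1) → ℝ) (n : ℕ) : ℝ :=
  if h : n < max k l + 1 then v ⟨n, h⟩
  else 1 / sol k l v (n - (k + 1)) + 1 / sol k l v (n - (l + 1))
termination_by n
decreasing_by all_goals omega

theorem sol_isSol (k l : ℕ) (v : Fin (max k l + 1) → ℝ) : IsSol k l v (sol k l v) := by
  constructor
  · intro i
    rw [sol, dif_pos i.2]
  · intro n
    rw [sol, dif_neg (by omega)]
    congr 3 <;> omega

theorem g2_scaled {k l d a' b' : ℕ} (hd0 : 0 < d) (hka : k + 1 = d * a') (hlb : l + 1 = d * b')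
    (ha1 : Odd a') (hb1 : Odd b') {v : Fin (max k l + 1) → ℝ} {x x' : ℕ → ℝ} {t : ℕ → ℝ}
    (ht : ∀ r, 0 < t r) (hxpos : ∀ n, 0 < x n)
    (hx : IsSol k l v x) (hx' : IsSol k l (scale d t v) x') :
    ∀ n, x' n = if Even (n / d) then x n * t (n % d) else x n / t (n % d) := by
  intro n
  induction n using Nat.strong_induction_on with
  | _ n ih =>
    rcases Nat.lt_or_ge n (max k l + 1) with hn | hn
    · have h1 := hx'.1 ⟨n, hn⟩
      have h2 := hx.1 ⟨n, hn⟩
      simp only at h1 h2
      rw [h1, h2]
      rfl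
    · have r1 := isSol_rec hx n (by omega)
      have r2 := isSol_rec hx' n (by omega)
      have hna : d * a' ≤ n := by omega
      have hnb : d * b' ≤ n := by omega
      have i1 := ih (n - (k + 1)) (by omega)
      have i2 := ih (n - (l + 1)) (by omega)
      have m1 : (n - (k + 1)) % d = n % d := by
        rw [hka, ← Nat.sub_mul_mod hna]
      have m2 : (n - (l + 1)) % d = n % d := by
        rw [hlb, ← Nat.sub_mul_mod hnb]
      have hflip : ∀ c' : ℕ, Odd c' → d * c' ≤ n →
          (Even ((n - d * c') / d) ↔ ¬ Even (n / d)) := by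
        intro c' hc' hN
        rw [Nat.sub_mul_div]
        have h1 : c' ≤ n / d := by
          rw [Nat.le_div_iff_mul_le hd0, mul_comm]; exact hN
        rw [Nat.even_sub h1]
        have := Nat.not_even_iff_odd.2 hc'
        tauto
      have f1 := hflip a' ha1 hna
      have f2 := hflip b' hb1 hnb
      rw [← hka] at f1
      rw [← hlb] at f2
      have q1 := hxpos (n - (k + 1))
      have q2 := hxpos (n - (l + 1))
      have q3 := ht (n % d)
      rw [m1] at i1
      rw [m2] at i2
      rw [r2, i1, i2]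
      by_cases hE : Even (n / d)
      · rw [if_pos hE, if_neg (by rw [f1]; simpa using hE), if_neg (by rw [f2]; simpa using hE), r1]
        field_simp
      · rw [if_neg hE, if_pos (f1.2 hE), if_pos (f2.2 hE), r1]
        field_simp

theorem tendsto_of_classes {M : ℕ} (hM : 0 < M) {f : ℕ → ℝ} {l : Filter ℝ}
    (h : ∀ r < M, Tendsto (fun j => f (r + M * j)) atTop l) : Tendsto f atTop l := by
  intro s hs
  have h1 : ∀ r : ℕ, ∃ J : ℕ, r < M → ∀ j, J ≤ j → f (r + M * j) ∈ s := by
    intro r
    by_cases hr : r < M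
    · obtain ⟨J, hJ⟩ := mem_atTop_sets.1 (h r hr hs)
      exact ⟨J, fun _ j hj => hJ j hj⟩
    · exact ⟨0, fun h => absurd h hr⟩
  choose J hJ using h1
  rw [Filter.mem_map, mem_atTop_sets]
  refine ⟨M * (Finset.range M).sup J, fun n hn => ?_⟩
  have h2 : (Finset.range M).sup J ≤ n / M := by
    rw [Nat.le_div_iff_mul_le hM, mul_comm]; exact hn
  have h3 : J (n % M) ≤ (Finset.range M).sup J :=
    Finset.le_sup (f := J) (Finset.mem_range.2 (Nat.mod_lt n hM))
  have h4 := hJ (n % M) (Nat.mod_lt n hM) (n / M) (h3.trans h2)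
  rw [Nat.mod_add_div] at h4
  exact h4

theorem goal2 : Goal2 := by
  intro k l h
  set d := Nat.gcd (k + 1) (l + 1) with hd
  have hd0 : 0 < d := Nat.gcd_pos_of_pos_left _ (by omega)
  obtain ⟨a', ha'⟩ := Nat.gcd_dvd_left (k + 1) (l + 1)
  obtain ⟨b', hb'⟩ := Nat.gcd_dvd_right (k + 1) (l + 1)
  rw [← hd] at ha' hb'
  have ea : (k + 1) / d = a' := by rw [ha']; exact Nat.mul_div_cancel_left a' hd0
  have eb : (l + 1) / d = b' := by rw [hb']; exact Nat.mul_div_cancel_left b' hd0
  have hodd : Odd a' ∧ Odd b' := by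
    have := h
    unfold BothOdd at this
    rw [← hd, ea, eb] at this
    exact this
  have hcop : Nat.Coprime a' b' := by
    have := Nat.coprime_div_gcd_div_gcd (m := k + 1) (n := l + 1) (by rw [← hd]; exact hd0)
    rw [← hd, ea, eb] at this
    exact this
  have part1 : ∀ v ∈ orthant k l, ∀ x, IsSol k l v x → ∃ φ : ℕ → ℝ, (∀ r, 0 < φ r) ∧
      ∀ r, Tendsto (fun j => x (r + d * (2 * j))) atTop (𝓝 (φ r)) ∧
        Tendsto (fun j => x (r + d * (2 * j + 1))) atTop (𝓝 (2 / φ r)) := by
    intro v hv x hx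
    have hxpos := isSol_pos hv hx
    have hrec := isSol_rec hx
    rw [ha', hb'] at hrec
    have := fun r => g2_class hodd.1 hodd.2 hcop hxpos hrec r
    choose φ h1 h2 using this
    exact ⟨φ, h1, h2⟩
  refine ⟨?_, ?_⟩
  · intro v hv x hx
    obtain ⟨φ, h1, h2⟩ := part1 v hv x hx
    exact ⟨φ, h1, fun r _ => h2 r⟩
  · intro v hv
    have hx := sol_isSol k l v
    set x := sol k l v with hxdef
    have hxpos := isSol_pos hv hx
    obtain ⟨φ, hφ, hφ2⟩ := part1 v hv x hx
    have hs2 : 0 < Real.sqrt 2 := Real.sqrt_pos.2 (by norm_num)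
    have hs22 : Real.sqrt 2 * Real.sqrt 2 = 2 := Real.mul_self_sqrt (by norm_num)
    have hscale_pos : ∀ t : ℕ → ℝ, (∀ r, 0 < t r) → ∀ i, 0 < scale d t v i := by
      intro t ht i
      unfold scale
      have h1 := hv i
      have h2 := ht (i.val % d)
      split_ifs <;> positivity
    have hdiv : ∀ r j : ℕ, r < d → (r + d * j) / d = j := by
      intro r j hr
      rw [Nat.add_mul_div_left _ _ hd0, Nat.div_eq_of_lt hr, zero_add]
    have hmod : ∀ r j : ℕ, r < d → (r + d * j) % d = r := by
      intro r j hr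
      rw [Nat.add_mul_mod_self_left, Nat.mod_eq_of_lt hr]
    have heven : ∀ (t : ℕ → ℝ), (∀ r, 0 < t r) → ∀ x', IsSol k l (scale d t v) x' → ∀ r < d,
        Tendsto (fun j => x' (r + d * (2 * j))) atTop (𝓝 (φ r * t r)) ∧
        Tendsto (fun j => x' (r + d * (2 * j + 1))) atTop (𝓝 ((2 / φ r) / t r)) := by
      intro t ht x' hx' r hr
      have hf := g2_scaled hd0 ha' hb' hodd.1 hodd.2 ht hxpos hx hx'
      constructor
      · refine ((hφ2 r).1.mul_const (t r)).congr ?_
        intro j
        rw [hf, hdiv r _ hr, hmod r _ hr, if_pos (even_two_mul j)]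
      · refine ((hφ2 r).2.div_const (t r)).congr ?_
        intro j
        rw [hf, hdiv r _ hr, hmod r _ hr, if_neg (by rw [Nat.even_add_one]; simp)]
    refine ⟨fun r => Real.sqrt 2 / φ r, fun r => div_pos hs2 (hφ r), ?_, ?_⟩
    · refine ⟨hscale_pos _ (fun r => div_pos hs2 (hφ r)), ?_⟩
      intro x' hx'
      have h1 := heven _ (fun r => div_pos hs2 (hφ r)) x' hx'
      refine tendsto_of_classes (M := 2 * d) (by omega) ?_
      intro r hr
      rcases Nat.lt_or_ge r d with h2 | h2
      · have h3 := (h1 r h2).1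
        have e : φ r * (Real.sqrt 2 / φ r) = Real.sqrt 2 := by
          have := (hφ r).ne'
          field_simp
        rw [e] at h3
        refine h3.congr ?_
        intro j
        congr 1
        ring
      · have hr' : r - d < d := by omega
        have h3 := (h1 (r - d) hr').2
        have e : (2 / φ (r - d)) / (Real.sqrt 2 / φ (r - d)) = Real.sqrt 2 := by
          have := (hφ (r - d)).ne'
          rw [div_div_div_cancel_right₀ this]
          rw [div_eq_iff hs2.ne', hs22]
        rw [e] at h3
        refine h3.congr ?_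
        intro j
        congr 1
        have e2 : r = (r - d) + d := by omega
        calc r - d + d * (2 * j + 1) = ((r - d) + d) + 2 * d * j := by ring
          _ = r + 2 * d * j := by rw [← e2]
    · intro t' ht' hb r hr
      have h1 := (heven t' ht' (sol k l (scale d t' v)) (sol_isSol _ _ _) r hr).1
      have h2 := hb.2 (sol k l (scale d t' v)) (sol_isSol _ _ _)
      have h3 : Tendsto (fun j : ℕ => r + d * (2 * j)) atTop atTop := by
        refine tendsto_atTop_mono (f := fun j : ℕ => j) ?_ tendsto_id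
        intro j
        calc j ≤ 1 * (2 * j) := by omega
          _ ≤ d * (2 * j) := Nat.mul_le_mul_right _ hd0
          _ ≤ r + d * (2 * j) := by omega
      have h4 := tendsto_nhds_unique h1 (h2.comp h3)
      rw [eq_div_iff (hφ r).ne', mul_comm]
      exact h4

end Pool.Agent.R260.RD
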